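import Pool.Agent.helper15.XE.SpecC
import Pool.Agent.helper74.TG.SW

set_option autoImplicit false

namespace Pool.Agent.XE

open Finset ArithmeticFunction
open Pool.Agent.EC (tri TL wt)

/-- Mass of one cell. -/
private lemma WCT_mcl (h1 : Pool.Agent.CH.MER_stmt) (K : ℝ) (hK : 1 ≤ K) : ∀ j : ℕ, 1 ≤ j → ∀ κ : ℝ, 0 < κ → ∃ N₀ : ℕ,
    ∀ N : ℕ, N₀ ≤ N → ∀ S : Finset ℕ,
    (∀ p ∈ S, p.Prime ∧ (N : ℝ) ^ (3 * (j : ℝ) / K) ≤ (p : ℝ) ∧ (p : ℝ) < (N : ℝ) ^ (3 * ((j : ℝ) + 1) / K)) →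
    ∑ p ∈ S, 1 / (p : ℝ) ≤ Real.log (((j : ℝ) + 1) / j) + κ := by
  obtain ⟨C, hC, h⟩ := h1
  have hK0 : 0 < K := by linarith
  intro j hj κ hκ
  refine ⟨⌈Real.exp (K * (1 + C / κ))⌉₊ + 2, fun N hN S hS => ?_⟩
  have hjr : (1 : ℝ) ≤ (j : ℝ) := by exact_mod_cast hj
  have hj0 : (0 : ℝ) < (j : ℝ) := by linarith
  have hNr : Real.exp (K * (1 + C / κ)) ≤ (N : ℝ) := by
    have h1 : Real.exp (K * (1 + C / κ)) ≤ (⌈Real.exp (K * (1 + C / κ))⌉₊ : ℝ) := Nat.le_ceil _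
    have h2 : ((⌈Real.exp (K * (1 + C / κ))⌉₊ + 2 : ℕ) : ℝ) ≤ (N : ℝ) := by exact_mod_cast hN
    push_cast at h2
    linarith
  have hN0 : (0 : ℝ) < (N : ℝ) := lt_of_lt_of_le (Real.exp_pos _) hNr
  have hL : K * (1 + C / κ) ≤ Real.log N := by
    rw [Real.le_log_iff_exp_le hN0]; exact hNr
  have hCk : 0 < C / κ := div_pos hC hκ
  have hL0 : 0 < Real.log N := by
    have : (0 : ℝ) < K * (1 + C / κ) := by positivity
    linarith
  set a : ℝ := (N : ℝ) ^ (3 * (j : ℝ) / K) with ha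
  set b : ℝ := (N : ℝ) ^ (3 * ((j : ℝ) + 1) / K) with hb
  have hla : Real.log a = 3 * (j : ℝ) / K * Real.log N := by rw [ha, Real.log_rpow hN0]
  have hlb : Real.log b = 3 * ((j : ℝ) + 1) / K * Real.log N := by rw [hb, Real.log_rpow hN0]
  have ha0 : 0 < a := Real.rpow_pos_of_pos hN0 _
  have hb0 : 0 < b := Real.rpow_pos_of_pos hN0 _
  have hla1 : 1 + C / κ ≤ Real.log a := by
    rw [hla]
    have h3 : 3 * (j : ℝ) / K * (K * (1 + C / κ)) ≤ 3 * (j : ℝ) / K * Real.log N :=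
      mul_le_mul_of_nonneg_left hL (by positivity)
    have h4 : 3 * (j : ℝ) / K * (K * (1 + C / κ)) = 3 * (j : ℝ) * (1 + C / κ) := by field_simp
    have h5 : 1 * (1 + C / κ) ≤ 3 * (j : ℝ) * (1 + C / κ) :=
      mul_le_mul_of_nonneg_right (by linarith) (by positivity)
    linarith
  have hlapos : 0 < Real.log a := by linarith
  have ha2 : 2 ≤ a := by
    have h6 : Real.log 2 ≤ Real.log a := by
      have := Real.log_two_lt_d9
      linarith
    exact (Real.log_le_log_iff (by norm_num) ha0).1 h6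
  have hab : a ≤ b := by
    have h7 : Real.log a ≤ Real.log b := by
      rw [hla, hlb]
      apply mul_le_mul_of_nonneg_right _ hL0.le
      exact div_le_div_of_nonneg_right (by linarith) hK0.le
    exact (Real.log_le_log_iff ha0 hb0).1 h7
  have hm := h a b ha2 hab
  have hq : Real.log b / Real.log a = ((j : ℝ) + 1) / j := by
    rw [hla, hlb]
    field_simp
  rw [hq] at hm
  have hk : C / Real.log a ≤ κ := by
    rw [div_le_iff₀ hlapos]
    have h8 : κ * (C / κ) ≤ κ * Real.log a := mul_le_mul_of_nonneg_left (by linarith) hκ.le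
    have h9 : κ * (C / κ) = C := by field_simp
    linarith
  have hsub : S ⊆ (Icc 1 ⌊b⌋₊).filter (fun p : ℕ => p.Prime ∧ a ≤ (p : ℝ)) := by
    intro p hp
    obtain ⟨hp1, hp2, hp3⟩ := hS p hp
    rw [mem_filter, mem_Icc]
    exact ⟨⟨hp1.one_lt.le, Nat.le_floor hp3.le⟩, hp1, hp2⟩
  calc ∑ p ∈ S, 1 / (p : ℝ)
      ≤ ∑ p ∈ (Icc 1 ⌊b⌋₊).filter (fun p : ℕ => p.Prime ∧ a ≤ (p : ℝ)), 1 / (p : ℝ) :=
        sum_le_sum_of_subset_of_nonneg hsub fun p _ _ => by positivity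
    _ ≤ _ := by linarith

/-- the prime number theorem in the intervals `(u / P, (u + h) / P]` -/
private lemma WCT_pnt (K : ℝ) (hK : 1 ≤ K) (B : ℕ) (κ : ℝ) (hκ : 0 < κ) : ∃ N₀ : ℕ, ∀ N : ℕ, N₀ ≤ N → ∀ u h P : ℝ,
    (N : ℝ) ^ 3 / 2 ≤ u → u / Real.log N ^ B ≤ h → h ≤ u → 1 ≤ P →
    P ≤ (N : ℝ) ^ (3 * (K - 1) / K : ℝ) →
    ∑ k ∈ Ioc ⌊u / P⌋₊ ⌊(u + h) / P⌋₊, vonMangoldt k ≤ (1 + κ) * (h / P) := by
  obtain ⟨C, x₀, hC, H⟩ := Pool.Agent.helper74.TG.psi_pnt (B + 1)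
  have hK0 : 0 < K := by linarith
  refine ⟨⌈Real.exp (max K (max (K * x₀) (3 * C * K ^ (B + 1) / κ)))⌉₊, ?_⟩
  intro N hN u h P hu hh1 hh2 hP1 hP2
  have hNe : Real.exp (max K (max (K * x₀) (3 * C * K ^ (B + 1) / κ))) ≤ (N : ℝ) :=
    (Nat.le_ceil _).trans (by exact_mod_cast hN)
  have hN0 : (0 : ℝ) < N := (Real.exp_pos _).trans_le hNe
  have hLM : max K (max (K * x₀) (3 * C * K ^ (B + 1) / κ)) ≤ Real.log N := by
    rw [Real.le_log_iff_exp_le hN0]
    exact hNe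
  set L := Real.log N with hLdef
  have hL1 : K ≤ L := (le_max_left _ _).trans hLM
  have hL2 : K * x₀ ≤ L := (le_max_left _ _).trans ((le_max_right _ _).trans hLM)
  have hL3 : 3 * C * K ^ (B + 1) / κ ≤ L :=
    (le_max_right _ _).trans ((le_max_right _ _).trans hLM)
  have hL0 : 0 < L := by linarith
  have hP0 : 0 < P := by linarith
  have hu0 : 0 < u := lt_of_lt_of_le (by positivity) hu
  have hh0 : 0 < h := lt_of_lt_of_le (by positivity) hh1
  set v := u / P with hv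
  set g := h / P with hg
  have hvpos : 0 < v := div_pos hu0 hP0
  have hgpos : 0 < g := div_pos hh0 hP0
  have hgv : g ≤ v := div_le_div_of_nonneg_right hh2 hP0.le
  have hsum : (u + h) / P = v + g := by rw [hv, hg, add_div]
  -- v is large
  have hvl : Real.exp (L / K) ≤ v := by
    have h1 : (N : ℝ) = Real.exp L := (Real.exp_log hN0).symm
    have h2 : (N : ℝ) ^ 3 = Real.exp (3 * L) := by
      rw [h1, ← Real.exp_nat_mul]
      norm_num
    have h3 : (N : ℝ) ^ (3 * (K - 1) / K : ℝ) = Real.exp (L * (3 * (K - 1) / K)) := by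
      rw [Real.rpow_def_of_pos hN0]
    have h4 : (1 : ℝ) / 2 ≥ Real.exp (-1) := by
      have h5 := Real.add_one_le_exp (1 : ℝ)
      rw [Real.exp_neg, ge_iff_le, one_div]
      exact inv_anti₀ (by norm_num) (by linarith)
    rw [hv, le_div_iff₀ hP0]
    calc Real.exp (L / K) * P ≤ Real.exp (L / K) * Real.exp (L * (3 * (K - 1) / K)) := by
          apply mul_le_mul_of_nonneg_left _ (Real.exp_pos _).le
          rw [← h3]
          exact hP2
      _ = Real.exp (L / K + L * (3 * (K - 1) / K)) := by rw [Real.exp_add]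
      _ ≤ Real.exp (3 * L + (-1)) := by
          apply Real.exp_le_exp.2
          have e1 : 1 ≤ L / K := by
            rw [le_div_iff₀ hK0]
            linarith
          have e2 : L * (3 * (K - 1) / K) = 3 * L - 3 * (L / K) := by field_simp
          linarith
      _ = Real.exp (3 * L) * Real.exp (-1) := Real.exp_add _ _
      _ ≤ Real.exp (3 * L) * (1 / 2) := mul_le_mul_of_nonneg_left h4 (Real.exp_pos _).le
      _ = (N : ℝ) ^ 3 / 2 := by rw [h2]; ring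
      _ ≤ u := hu
  have hv0 : x₀ ≤ v := by
    have h1 := Real.add_one_le_exp (L / K)
    have h2 : x₀ ≤ L / K := by
      rw [le_div_iff₀ hK0]
      linarith
    linarith
  have hlv : L / K ≤ Real.log v := by
    rw [Real.le_log_iff_exp_le hvpos]
    exact hvl
  have hLd : 0 < L / K := div_pos hL0 hK0
  have hlv0 : 0 < Real.log v := by linarith
  have hlw : Real.log v ≤ Real.log (v + g) := Real.log_le_log hvpos (by linarith)
  have e1 := H v hv0
  have e2 := H (v + g) (by linarith)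
  -- the basic error
  have e3 : v / (L / K) ^ (B + 1) ≤ K ^ (B + 1) * (g / L) := by
    have h1 : v / L ^ B ≤ g := by
      rw [hv, hg, div_right_comm]
      exact div_le_div_of_nonneg_right hh1 hP0.le
    rw [div_pow, div_div_eq_mul_div, pow_succ L]
    calc v * K ^ (B + 1) / (L ^ B * L) = K ^ (B + 1) * ((v / L ^ B) / L) := by
          field_simp
      _ ≤ K ^ (B + 1) * (g / L) := by
          apply mul_le_mul_of_nonneg_left _ (by positivity)
          exact div_le_div_of_nonneg_right h1 hL0.le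
  have hpw : (L / K) ^ (B + 1) ≤ Real.log v ^ (B + 1) := pow_le_pow_left₀ hLd.le hlv _
  have hpw2 : (L / K) ^ (B + 1) ≤ Real.log (v + g) ^ (B + 1) :=
    pow_le_pow_left₀ hLd.le (hlv.trans hlw) _
  have e4 : C * v / Real.log v ^ (B + 1) ≤ C * (K ^ (B + 1) * (g / L)) := by
    calc C * v / Real.log v ^ (B + 1) ≤ C * v / (L / K) ^ (B + 1) :=
          div_le_div_of_nonneg_left (by positivity) (by positivity) hpw
      _ = C * (v / (L / K) ^ (B + 1)) := by ring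
      _ ≤ _ := mul_le_mul_of_nonneg_left e3 hC.le
  have e5 : C * (v + g) / Real.log (v + g) ^ (B + 1) ≤ 2 * C * (K ^ (B + 1) * (g / L)) := by
    calc C * (v + g) / Real.log (v + g) ^ (B + 1) ≤ C * (v + g) / (L / K) ^ (B + 1) :=
          div_le_div_of_nonneg_left (by positivity) (by positivity) hpw2
      _ ≤ C * (2 * v) / (L / K) ^ (B + 1) := by
          apply div_le_div_of_nonneg_right _ (by positivity)
          apply mul_le_mul_of_nonneg_left _ hC.le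
          linarith
      _ = 2 * C * (v / (L / K) ^ (B + 1)) := by ring
      _ ≤ _ := mul_le_mul_of_nonneg_left e3 (by positivity)
  have e6 : 3 * C * (K ^ (B + 1) * (g / L)) ≤ κ * g := by
    rw [div_le_iff₀ hκ] at hL3
    have h1 : 3 * C * (K ^ (B + 1) * (g / L)) = (3 * C * K ^ (B + 1)) * g / L := by ring
    rw [h1, div_le_iff₀ hL0]
    calc (3 * C * K ^ (B + 1)) * g ≤ (L * κ) * g := mul_le_mul_of_nonneg_right hL3 hgpos.le
      _ = κ * g * L := by ring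
  have hfl : ⌊v⌋₊ ≤ ⌊v + g⌋₊ := Nat.floor_le_floor (by linarith)
  have e7 : ∑ n ∈ Ioc 0 ⌊v + g⌋₊, vonMangoldt n =
      ∑ n ∈ Ioc 0 ⌊v⌋₊, vonMangoldt n + ∑ n ∈ Ioc ⌊v⌋₊ ⌊v + g⌋₊, vonMangoldt n :=
    (sum_Ioc_consecutive _ (Nat.zero_le _) hfl).symm
  have a1 := (abs_le.mp e1).1
  have a2 := (abs_le.mp e2).2
  rw [hsum]
  have : (1 + κ) * g = g + κ * g := by ring
  rw [this]
  linarith

private lemma WCT_mult (u h : ℝ) (P : ℕ) (hP : 0 < P) :
    ∑ m ∈ (Ioc ⌊u⌋₊ ⌊u + h⌋₊).filter (fun m => P ∣ m), vonMangoldt (m / P) ≤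
      ∑ k ∈ Ioc ⌊u / P⌋₊ ⌊(u + h) / P⌋₊, vonMangoldt k := by
  classical
  have h1 : ∑ m ∈ (Ioc ⌊u⌋₊ ⌊u + h⌋₊).filter (fun m => P ∣ m), vonMangoldt (m / P) =
      ∑ k ∈ ((Ioc ⌊u⌋₊ ⌊u + h⌋₊).filter (fun m => P ∣ m)).image (fun m => m / P), vonMangoldt k := by
    rw [Finset.sum_image]
    intro x hx y hy hxy
    simp only [Finset.coe_filter, Set.mem_setOf_eq] at hx hy
    dsimp only at hxy
    rw [← Nat.div_mul_cancel hx.2, ← Nat.div_mul_cancel hy.2, hxy]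
  rw [h1]
  apply Finset.sum_le_sum_of_subset_of_nonneg
  · intro k hk
    rw [Finset.mem_image] at hk
    obtain ⟨m, hm, rfl⟩ := hk
    rw [Finset.mem_filter, Finset.mem_Ioc] at hm
    obtain ⟨⟨h2, h3⟩, h4⟩ := hm
    rw [Finset.mem_Ioc, Nat.floor_div_natCast, Nat.floor_div_natCast]
    constructor
    · rw [Nat.div_lt_iff_lt_mul hP, Nat.div_mul_cancel h4]
      exact h2
    · exact Nat.div_le_div_right h3
  · intro _ _ _
    exact vonMangoldt_nonneg

/-- the primes of the cell -/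
private noncomputable def WCT_S (N : ℕ) (a b : ℝ) : Finset ℕ :=
  (range (⌈(N : ℝ) ^ b⌉₊ + 1)).filter fun p : ℕ => p.Prime ∧ (N : ℝ) ^ a ≤ (p : ℝ) ∧ (p : ℝ) < (N : ℝ) ^ b

private lemma WCT_mem (N : ℕ) (a b : ℝ) (p : ℕ) :
    p ∈ WCT_S N a b ↔ p.Prime ∧ (N : ℝ) ^ a ≤ (p : ℝ) ∧ (p : ℝ) < (N : ℝ) ^ b := by
  unfold WCT_S
  rw [Finset.mem_filter, Finset.mem_range]
  constructor
  · exact fun h => h.2
  · intro h
    refine ⟨?_, h⟩
    have h1 : (p : ℝ) < (⌈(N : ℝ) ^ b⌉₊ : ℝ) := h.2.2.trans_le (Nat.le_ceil _)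
    have h2 : p < ⌈(N : ℝ) ^ b⌉₊ := by exact_mod_cast h1
    omega

private lemma WCT_TL {r : ℕ} (N : ℕ) (a b : Fin r → ℝ) (m : ℕ) :
    TL N a b m ≤ ∑ p ∈ (Fintype.piFinset fun i : Fin r => WCT_S N (a i) (b i)).filter
      (fun p => ∏ i, p i ∣ m), vonMangoldt (m / ∏ i, p i) := by
  unfold TL
  apply Finset.sum_le_sum_of_subset_of_nonneg
  · intro p hp
    rw [Finset.mem_filter, Fintype.mem_piFinset] at hp ⊢
    refine ⟨fun i => ?_, hp.2.2⟩
    rw [WCT_mem]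
    exact ⟨Nat.prime_of_mem_primeFactors (hp.1 i), hp.2.1 i⟩
  · intro _ _ _
    exact vonMangoldt_nonneg

private lemma WCT_delta {r : ℕ} (l : Fin r → ℝ) (κ : ℝ) (hκ : 0 < κ) :
    ∃ δ : ℝ, 0 < δ ∧ (1 + δ) * ∏ i, (l i + δ) ≤ ∏ i, l i + κ := by
  have hf : Continuous fun t : ℝ => (1 + t) * ∏ i, (l i + t) := by fun_prop
  have h1 : (1 + (0 : ℝ)) * ∏ i, (l i + 0) < ∏ i, l i + κ := by
    simp only [add_zero, one_mul]
    linarith
  have h2 := (hf.tendsto 0).eventually (gt_mem_nhds h1)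
  rw [Metric.eventually_nhds_iff] at h2
  obtain ⟨ε, hε, h3⟩ := h2
  refine ⟨ε / 2, by linarith, (h3 ?_).le⟩
  rw [Real.dist_eq, sub_zero, abs_of_pos (by linarith)]
  linarith

theorem WCT (h1 : Pool.Agent.CH.MER_stmt) : WCT_stmt := by
  intro r j hj hsum κ hκ B
  obtain ⟨K, hKd⟩ : ∃ K : ℝ, K = (hX r : ℝ) := ⟨_, rfl⟩
  have hK : 1 ≤ K := by
    rw [hKd]
    unfold hX
    split_ifs <;> norm_num
  have hK0 : 0 < K := by linarith
  have hMCL := WCT_mcl h1 K hK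
  obtain ⟨δ, hδ, hδ2⟩ := WCT_delta (fun i => Real.log (((j i : ℝ) + 1) / j i)) κ hκ
  obtain ⟨N₁, hN₁⟩ := WCT_pnt K hK B δ hδ
  have hM := fun i => hMCL (j i) (hj i) δ hδ
  choose M hM using hM
  refine ⟨max (max N₁ 1) (univ.sup M), ?_⟩
  intro N hN u h hu _ hh1 hh2
  have hNN₁ : N₁ ≤ N := (le_max_left _ _).trans ((le_max_left _ _).trans hN)
  have hN1 : 1 ≤ N := (le_max_right _ _).trans ((le_max_left _ _).trans hN)
  have hNM : ∀ i, M i ≤ N := fun i =>
    (Finset.le_sup (Finset.mem_univ i)).trans ((le_max_right _ _).trans hN)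
  have hNr : (1 : ℝ) ≤ N := by exact_mod_cast hN1
  have hN0 : (0 : ℝ) < N := by linarith
  have hu0 : 0 < u := lt_of_lt_of_le (by positivity) hu
  have hh0 : 0 ≤ h := by
    refine le_trans ?_ hh1
    apply div_nonneg hu0.le
    exact pow_nonneg (Real.log_nonneg hNr) _
  set S : Fin r → Finset ℕ := fun i => WCT_S N (aX j i) (bX j i) with hS
  have hSm : ∀ i, ∑ q ∈ S i, 1 / (q : ℝ) ≤ Real.log (((j i : ℝ) + 1) / j i) + δ := by
    intro i
    apply hM i N (hNM i)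
    intro p hp
    rw [hS] at hp
    dsimp only at hp
    rw [WCT_mem] at hp
    unfold aX bX at hp
    rw [← hKd] at hp
    exact hp
  have hP : ∀ p ∈ Fintype.piFinset S, 0 < ∏ i, p i ∧
      ((∏ i, p i : ℕ) : ℝ) ≤ (N : ℝ) ^ (3 * (K - 1) / K : ℝ) := by
    intro p hp
    rw [Fintype.mem_piFinset] at hp
    have hp' : ∀ i, (p i).Prime ∧ (N : ℝ) ^ aX j i ≤ (p i : ℝ) ∧ (p i : ℝ) < (N : ℝ) ^ bX j i :=
      fun i => (WCT_mem _ _ _ _).1 (hp i)
    refine ⟨Finset.prod_pos fun i _ => (hp' i).1.pos, ?_⟩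
    rw [Nat.cast_prod]
    calc ∏ i, (p i : ℝ) ≤ ∏ i, (N : ℝ) ^ bX j i :=
          Finset.prod_le_prod (fun i _ => Nat.cast_nonneg _) (fun i _ => (hp' i).2.2.le)
      _ = (N : ℝ) ^ ∑ i, bX j i := (Real.rpow_sum_of_pos hN0 _ _).symm
      _ ≤ (N : ℝ) ^ (3 * (K - 1) / K : ℝ) := by
          apply Real.rpow_le_rpow_of_exponent_le hNr
          have h1 : ∑ i, (j i + 1) + 1 ≤ hX r := by omega
          have h2 : ((∑ i, (j i + 1) : ℕ) : ℝ) ≤ K - 1 := by
            have h4 : ((∑ i, (j i + 1) : ℕ) : ℝ) + 1 ≤ K := by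
              rw [hKd]
              exact_mod_cast h1
            linarith
          have h3 : ∑ i, bX j i = 3 / K * ((∑ i, (j i + 1) : ℕ) : ℝ) := by
            unfold bX
            rw [← hKd, Nat.cast_sum, Finset.mul_sum]
            refine Finset.sum_congr rfl fun i _ => ?_
            push_cast
            ring
          rw [h3]
          calc 3 / K * ((∑ i, (j i + 1) : ℕ) : ℝ) ≤ 3 / K * (K - 1) :=
                mul_le_mul_of_nonneg_left h2 (by positivity)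
            _ = 3 * (K - 1) / K := by ring
  calc ∑ m ∈ Ioc ⌊u⌋₊ ⌊u + h⌋₊, TL N (aX j) (bX j) m
      ≤ ∑ m ∈ Ioc ⌊u⌋₊ ⌊u + h⌋₊, ∑ p ∈ (Fintype.piFinset S).filter
          (fun p => ∏ i, p i ∣ m), vonMangoldt (m / ∏ i, p i) :=
        Finset.sum_le_sum fun m _ => WCT_TL N _ _ m
    _ = ∑ p ∈ Fintype.piFinset S, ∑ m ∈ (Ioc ⌊u⌋₊ ⌊u + h⌋₊).filter (fun m => ∏ i, p i ∣ m),
          vonMangoldt (m / ∏ i, p i) := by
        simp only [Finset.sum_filter]
        exact Finset.sum_comm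
    _ ≤ ∑ p ∈ Fintype.piFinset S, (1 + δ) * (h / ((∏ i, p i : ℕ) : ℝ)) := by
        refine Finset.sum_le_sum fun p hp => ?_
        refine (WCT_mult u h _ (hP p hp).1).trans ?_
        apply hN₁ N hNN₁ u h _ hu hh1 hh2 _ (hP p hp).2
        exact_mod_cast (hP p hp).1
    _ = (1 + δ) * h * ∏ i, ∑ q ∈ S i, 1 / (q : ℝ) := by
        rw [Finset.prod_univ_sum, Finset.mul_sum]
        refine Finset.sum_congr rfl fun p _ => ?_
        rw [Nat.cast_prod, Finset.prod_div_distrib, Finset.prod_const_one]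
        ring
    _ ≤ (1 + δ) * h * ∏ i, (Real.log (((j i : ℝ) + 1) / j i) + δ) := by
        apply mul_le_mul_of_nonneg_left _ (by positivity)
        exact Finset.prod_le_prod (fun i _ => Finset.sum_nonneg fun q _ => by positivity)
          (fun i _ => hSm i)
    _ = ((1 + δ) * ∏ i, (Real.log (((j i : ℝ) + 1) / j i) + δ)) * h := by ring
    _ ≤ (∏ i, Real.log (((j i : ℝ) + 1) / j i) + κ) * h := mul_le_mul_of_nonneg_right hδ2 hh0

end Pool.Agent.XE
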